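import Pool.Agent.H98.LvdP.Upper

/-! An explicit bound for the least multiplier of every odd integer. -/

namespace Pool.Agent.Results.MP_a57ff3_nt.EffectiveBound

open Pool.Agent.H98.LvdP

/-- Every odd integer `k` has a multiplier `m < 16^√(2|k|)`; more precisely, if
`|k| ≤ 2·4^r`, there is a multiplier `m ≤ (4^(2^(r+1)-1) - 1)/3`. -/
theorem result :
    (∀ k : ℤ, Odd k → ∀ r : ℕ, |k| ≤ 2 * 4 ^ r →
      ∃ m : ℤ, IsMultiplier k m ∧ 3 * m ≤ 4 ^ (2 ^ (r + 1) - 1) - 1) ∧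
    (∀ k : ℤ, Odd k → ∃ m : ℤ, IsMultiplier k m ∧ (m : ℝ) < 16 ^ Real.sqrt (2 * |(k : ℝ)|)) := by
  refine ⟨fun k hk r hr => exists_multiplier hk hr, fun k hk => ?_⟩
  have hk1 : 1 ≤ |k| := by
    have : k ≠ 0 := by rintro rfl; simp at hk
    exact Int.one_le_abs this
  have hex : ∃ r : ℕ, |k| ≤ 2 * 4 ^ r := by
    refine ⟨k.natAbs, ?_⟩
    have h1 : k.natAbs < 4 ^ k.natAbs := Nat.lt_pow_self (by norm_num)
    have h2 : (k.natAbs : ℤ) < 4 ^ k.natAbs := by exact_mod_cast h1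
    have h3 : (k.natAbs : ℤ) = |k| := Int.natCast_natAbs k
    linarith
  classical
  obtain ⟨r, hr, hmin⟩ : ∃ r : ℕ, |k| ≤ 2 * 4 ^ r ∧ ∀ s < r, ¬ |k| ≤ 2 * 4 ^ s :=
    ⟨Nat.find hex, Nat.find_spec hex, fun s hs => Nat.find_min hex hs⟩
  obtain ⟨m, hm, hb⟩ := exists_multiplier hk hr
  refine ⟨m, hm, ?_⟩
  -- `2^r ≤ √(2|k|)`
  have h2r : ((2 : ℝ) ^ r) ≤ Real.sqrt (2 * |(k : ℝ)|) := by
    apply Real.le_sqrt_of_sq_le
    have hsq : ((2 : ℝ) ^ r) ^ 2 = 4 ^ r := by rw [← pow_mul, mul_comm, pow_mul]; norm_num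
    rw [hsq]
    have hkR : (1 : ℝ) ≤ |(k : ℝ)| := by exact_mod_cast hk1
    cases r with
    | zero => simp; linarith
    | succ s =>
      have := hmin s (by omega)
      push Not at this
      have h' : (2 : ℝ) * 4 ^ s < |(k : ℝ)| := by exact_mod_cast this
      rw [pow_succ]
      linarith
  have hmR : (m : ℝ) < 4 ^ (2 ^ (r + 1)) := by
    have h1 : (4 : ℤ) ^ (2 ^ (r + 1) - 1) ≤ 4 ^ (2 ^ (r + 1)) :=
      pow_le_pow_right₀ (by norm_num) (Nat.sub_le _ _)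
    have h2 : m < 4 ^ (2 ^ (r + 1)) := by
      have := hm.1
      omega
    exact_mod_cast h2
  have h16 : ((4 : ℝ) ^ (2 ^ (r + 1))) = 16 ^ ((2 : ℝ) ^ r) := by
    rw [pow_succ, mul_comm, pow_mul]
    have : ((2 : ℝ) ^ r) = ((2 ^ r : ℕ) : ℝ) := by push_cast; ring
    rw [this, Real.rpow_natCast]
    norm_num
  calc (m : ℝ) < 16 ^ ((2 : ℝ) ^ r) := by rw [← h16]; exact hmR
    _ ≤ 16 ^ Real.sqrt (2 * |(k : ℝ)|) := Real.rpow_le_rpow_of_exponent_le (by norm_num) h2r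

end Pool.Agent.Results.MP_a57ff3_nt.EffectiveBound
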