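import Pool.Agent.H98.LvdP.Lower

/-! The least multiplier of `k = 2 * 4^t + 5`, and the exponent `2` it forces. -/

namespace Pool.Agent.Results.MP_a57ff3_nt.ExponentTwo

open Pool.Agent.H98.LvdP

lemma M_isMultiplier (s : ℕ) : IsMultiplier (2 * 4 ^ (s + 3) + 5) (M s) := by
  have hx : (4 : ℤ) ^ s = 3 * u s + 1 := by have := three_u s; omega
  have hu0 := u_nonneg s
  have hu2 : u (s + 2) = 5 + 16 * u s := by simp only [u]; ring
  have h1 : (4 : ℤ) ^ (s + 1) = 4 * (3 * u s + 1) := by rw [pow_succ, hx]; ring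
  have h2 : (4 : ℤ) ^ (s + 2) = 16 * (3 * u s + 1) := by rw [pow_succ, h1]; ring
  have h3 : (4 : ℤ) ^ (s + 3) = 64 * (3 * u s + 1) := by rw [pow_succ, h2]; ring
  have hone : Dig 1 1 := ⟨1, 0, by simp, by simp [Dig], by norm_num⟩
  refine ⟨?_, ?_, ?_⟩
  · unfold M
    rw [h1, h2, h3, hu2]
    nlinarith
  · have ha : Dig (s + 1) 1 := Dig_mono (by omega) hone
    have hb : Dig 2 3 := ⟨-1, 1, by simp, hone, by norm_num⟩
    have hc : Dig (s + 3) (1 + 4 ^ (s + 1) * 3) := Dig_append ha hb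
    have hd : u (s + 2) ∈ L := (mem_L_iff _).2 ⟨_, Dig_u _⟩
    have := L_append hc hd
    convert this using 1
    unfold M
    rw [h1, h2, h3]
    ring
  · -- the three blocks of the product
    have hl0 : Dig (s + 3) (5 - 4 ^ (s + 1)) := by
      cases s with
      | zero => exact Dig_mono (s := 1) (by omega) (by simpa using hone)
      | succ s =>
        have ha : Dig (s + 2) 5 :=
          Dig_mono (s := 2) (by omega) ⟨1, 1, by simp, hone, by norm_num⟩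
        have hb : Dig 2 (-1) := Dig_mono (s := 1) (by omega) (Dig_neg hone)
        have := Dig_append ha hb
        convert this using 1
        ring
    have hl1 : Dig (s + 3) (0 + 4 * (-u s) + 4 ^ (s + 1) * (-3)) := by
      have ha : Dig (s + 1) (0 + 4 * (-u s)) := ⟨0, -u s, by simp, Dig_neg (Dig_u s), rfl⟩
      have hb : Dig 2 (-3) := ⟨1, -1, by simp, Dig_neg hone, by norm_num⟩
      exact Dig_append ha hb
    have hl2 : -u (s + 2) + 4 ^ (s + 2) * 1 ∈ L :=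
      L_append (Dig_neg (Dig_u (s + 2))) ((mem_L_iff _).2 ⟨1, hone⟩)
    have := L_append hl0 (L_append hl1 hl2)
    convert this using 1
    unfold M
    rw [h1, h2, h3, hu2]
    ring

lemma sq_le (s : ℕ) : ((2 : ℤ) * 4 ^ (s + 3) + 5) ^ 2 ≤ 54 * M s := by
  have hx : (4 : ℤ) ^ s = 3 * u s + 1 := by have := three_u s; omega
  have hu0 := u_nonneg s
  have hu2 : u (s + 2) = 5 + 16 * u s := by simp only [u]; ring
  have h1 : (4 : ℤ) ^ (s + 1) = 4 * (3 * u s + 1) := by rw [pow_succ, hx]; ring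
  have h2 : (4 : ℤ) ^ (s + 2) = 16 * (3 * u s + 1) := by rw [pow_succ, h1]; ring
  have h3 : (4 : ℤ) ^ (s + 3) = 64 * (3 * u s + 1) := by rw [pow_succ, h2]; ring
  unfold M
  rw [h1, h2, h3, hu2]
  nlinarith

lemma M_eq (s : ℕ) :
    M s = ((4 : ℤ) ^ (2 * (s + 3) - 1) - 4 ^ (s + 3 - 1)) / 3 - 4 ^ (s + 3 - 2) + 1 := by
  have e1 : 2 * (s + 3) - 1 = (s + 2) + (s + 3) := by omega
  have e2 : s + 3 - 1 = s + 2 := by omega
  have e3 : s + 3 - 2 = s + 1 := by omega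
  rw [e1, e2, e3, pow_add]
  have hu := three_u (s + 2)
  have h : (4 : ℤ) ^ (s + 2) * 4 ^ (s + 3) - 4 ^ (s + 2) =
      3 * (4 ^ (s + 3) * u (s + 2) + 4 ^ (s + 2)) := by
    have : (4 : ℤ) ^ (s + 3) = 4 ^ (s + 2) * 4 := pow_succ _ _
    linear_combination (-(4 : ℤ) ^ (s + 3)) * hu + this
  rw [h, Int.mul_ediv_cancel_left _ (by norm_num)]
  unfold M
  ring

/-- For every `t ≥ 3` the least multiplier of `2·4^t + 5` is
`(4^(2t-1) - 4^(t-1))/3 - 4^(t-2) + 1`, so no exponent `C < 2` is admissible. -/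
theorem result :
    (∀ t : ℕ, 3 ≤ t → IsLeast {m : ℤ | IsMultiplier (2 * 4 ^ t + 5) m}
      ((4 ^ (2 * t - 1) - 4 ^ (t - 1)) / 3 - 4 ^ (t - 2) + 1)) ∧
    (∀ C : ℝ, C < 2 → ∃ T : ℕ, ∀ t : ℕ, T ≤ t → ∀ m : ℤ, IsMultiplier (2 * 4 ^ t + 5) m →
      ((2 * 4 ^ t + 5 : ℤ) : ℝ) ^ C < (m : ℝ)) := by
  constructor
  · intro t ht
    obtain ⟨s, rfl⟩ : ∃ s, t = s + 3 := ⟨t - 3, by omega⟩
    rw [← M_eq]
    exact ⟨M_isMultiplier s, fun m hm => lower s hm⟩
  · intro C hC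
    have hlim := (tendsto_rpow_atTop (y := 2 - C) (by linarith)).eventually_gt_atTop 54
    obtain ⟨X, hX⟩ := Filter.eventually_atTop.1 hlim
    obtain ⟨n, hn⟩ := exists_nat_ge X
    refine ⟨n + 3, fun t ht m hm => ?_⟩
    obtain ⟨s, rfl⟩ : ∃ s, t = s + 3 := ⟨t - 3, by omega⟩
    have hlow := lower s hm
    have hsq := sq_le s
    set k : ℤ := 2 * 4 ^ (s + 3) + 5 with hk
    have hkpos : (0 : ℝ) < (k : ℝ) := by
      have : (0 : ℤ) < k := by positivity
      exact_mod_cast this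
    have hkX : X ≤ (k : ℝ) := by
      have h1 : n ≤ s := by omega
      have h2 : (s : ℤ) ≤ k := by
        have h3 : (s : ℤ) < 4 ^ s := by exact_mod_cast Nat.lt_pow_self (by norm_num)
        have h4 : (4 : ℤ) ^ s ≤ 4 ^ (s + 3) := pow_le_pow_right₀ (by norm_num) (by omega)
        have h5 : (0 : ℤ) ≤ 4 ^ (s + 3) := by positivity
        rw [hk]; linarith
      have h6 : (n : ℝ) ≤ (s : ℝ) := by exact_mod_cast h1
      have h7 : (s : ℝ) ≤ (k : ℝ) := by exact_mod_cast h2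
      linarith
    have h54 := hX _ hkX
    have hsplit : (k : ℝ) ^ C * (k : ℝ) ^ (2 - C) = (k : ℝ) ^ 2 := by
      rw [← Real.rpow_add hkpos]
      norm_num
    have hkC : (0 : ℝ) < (k : ℝ) ^ C := Real.rpow_pos_of_pos hkpos _
    have hsqR : (k : ℝ) ^ 2 ≤ 54 * (m : ℝ) := by
      have : k ^ 2 ≤ 54 * m := by linarith
      exact_mod_cast this
    by_contra hcon
    push Not at hcon
    have : (k : ℝ) ^ C * 54 < (k : ℝ) ^ C * (k : ℝ) ^ (2 - C) :=
      mul_lt_mul_of_pos_left h54 hkC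
    nlinarith

end Pool.Agent.Results.MP_a57ff3_nt.ExponentTwo
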