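import Pool.Agent.H62.LV.WinAB
import Pool.Agent.H62.LV.WinCE

/-! Multipliers of size `|k|^(C log log |k|)` for all odd `k` in two windows of `|k|/4^t`. -/

namespace Pool.Agent.Results.MP_a57ff3_nt.LogLogWindow

open Pool.Agent.H98.LvdP

/-- Every odd `k` with `4^t < |k| ≤ (7/4) 4^t` or `(17/8) 4^t < |k| ≤ 3 * 4^t`, `t ≥ 2`, has a
multiplier `m ≤ |k|^(806 log log |k|)`. -/
theorem result (t : ℕ) (ht : 2 ≤ t) (k : ℤ) (hk : Odd k)
    (h : (4 ^ t < |k| ∧ 4 * |k| ≤ 7 * 4 ^ t) ∨ (17 * 4 ^ t < 8 * |k| ∧ |k| ≤ 3 * 4 ^ t)) :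
    ∃ m : ℤ, IsMultiplier k m ∧
      (m : ℝ) ≤ |(k : ℝ)| ^ (806 * Real.log (Real.log |(k : ℝ)|)) := by
  rcases h with ⟨h1, h2⟩ | ⟨h1, h2⟩
  · obtain ⟨m, hm, hb⟩ := Pool.Agent.H62.LV.bound_window hk ht h1 h2
    refine ⟨m, hm, hb.trans ?_⟩
    have h3 : (16 : ℤ) ≤ |k| := by
      have : (4 : ℤ) ^ 2 ≤ 4 ^ t := pow_le_pow_right₀ (by norm_num) ht
      linarith
    have h4 : (16 : ℝ) ≤ |(k : ℝ)| := by
      have : ((16 : ℤ) : ℝ) ≤ ((|k| : ℤ) : ℝ) := by exact_mod_cast h3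
      rwa [Int.cast_abs] at this
    have h5 : 1 ≤ Real.log |(k : ℝ)| := by
      rw [Real.le_log_iff_exp_le (by linarith)]
      have := Real.exp_one_lt_d9
      linarith
    have h6 := Real.log_nonneg h5
    exact Real.rpow_le_rpow_of_exponent_le (by linarith) (by linarith)
  · exact Pool.Agent.H62.LV.bound_window2 hk ht h1 h2

end Pool.Agent.Results.MP_a57ff3_nt.LogLogWindow
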