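import Pool.Agent.H6.LvdP3.All

/-! A quasi-polynomial bound for the least multiplier of every odd integer. -/

namespace Pool.Agent.Results.MP_a57ff3_nt.QuasiPolynomial

open Pool.Agent.H98.LvdP

/-- There is an absolute constant `C` such that every odd `k` has a multiplier
`m ≤ exp (C (log |k|)^50)`. -/
theorem result : ∃ C : ℝ, ∀ k : ℤ, Odd k →
    ∃ m : ℤ, IsMultiplier k m ∧ (m : ℝ) ≤ Real.exp (C * Real.log |(k : ℝ)| ^ 50) :=
  Pool.Agent.H6.LvdP3.all_odd

end Pool.Agent.Results.MP_a57ff3_nt.QuasiPolynomial
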